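import Pool.Agent.H921R2.TatePole.Main
import Pool.Agent.H921R2.TatePole.BaseChange

/-!
# The sum of `1 / p` over the primes `p` with a prime of degree one above them
-/

set_option autoImplicit false

namespace Pool.Agent.D0H93.ZD

open NumberField IsDedekindDomain Filter Topology Pool.Agent.H921R2.TatePole

/-- the prime numbers larger than `D` with a prime of degree one above them -/
def degOne (L : Type) [Field L] [NumberField L] (D : ℕ) : Set ℕ :=
  {p | D < p ∧ p.Prime ∧ ∃ u : HeightOneSpectrum (𝓞 L), Ideal.absNorm u.asIdeal = p}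

theorem not_summable_degOne (L : Type) [Field L] [NumberField L] (D : ℕ) :
    ¬ Summable fun p : degOne L D => 1 / ((p : ℕ) : ℝ) := by
  classical
  intro hsum
  have h1 : Summable ((degOne L D).indicator fun p : ℕ => 1 / (p : ℝ)) :=
    (summable_subtype_iff_indicator (f := fun p : ℕ => 1 / (p : ℝ))).1 hsum
  have h2 : Summable fun p : Nat.Primes => (degOne L D).indicator (fun p : ℕ => 1 / (p : ℝ)) p :=
    h1.comp_injective Nat.Primes.coe_nat_injective
  let f : Nat.Primes → ℝ := fun p => (degOne L D).indicator (fun p : ℕ => 1 / (p : ℝ)) p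
  let g : Nat.Primes → ℝ := fun p => if (p : ℕ) ≤ D then 1 else 0
  have hg : Summable g := by
    refine summable_of_hasFiniteSupport (Set.Finite.subset (s := {p : Nat.Primes | (p : ℕ) ≤ D}) ?_ ?_)
    · exact (Set.finite_Iic D).preimage Nat.Primes.coe_nat_injective.injOn
    · intro p hp
      by_contra h
      apply hp
      exact if_neg h
  set d : ℝ := (Module.finrank ℚ L : ℝ) with hd
  have hd0 : 0 ≤ d := by positivity
  have hbound : ∀ x : ℝ, 1 < x → ∀ p : Nat.Primes, (R L p : ℝ) * w x p ≤ d * (f p + g p) := by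
    intro x hx p
    have hp1 : (1 : ℝ) ≤ (p : ℕ) := by exact_mod_cast p.2.one_lt.le
    have hp0 : (0 : ℝ) < (p : ℕ) := by linarith
    have hw1 : w x p ≤ 1 / (p : ℕ) := by
      unfold w
      rw [one_div, ← Real.rpow_neg_one]
      exact Real.rpow_le_rpow_of_exponent_le hp1 (by linarith)
    have hw2 : w x p ≤ 1 := hw1.trans (by rw [div_le_one hp0]; exact hp1)
    have hR : (R L p : ℝ) ≤ d := by
      rw [hd]
      exact_mod_cast R_le (K := L) p
    have hf0 : 0 ≤ f p := Set.indicator_nonneg (fun _ _ => by positivity) _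
    have hg0 : 0 ≤ g p := by
      simp only [g]
      split_ifs <;> norm_num
    by_cases hR0 : R L p = 0
    · rw [hR0, Nat.cast_zero, zero_mul]
      positivity
    by_cases hpD : (p : ℕ) ≤ D
    · have h3 : g p = 1 := if_pos hpD
      rw [h3]
      calc (R L p : ℝ) * w x p ≤ d * 1 := mul_le_mul hR hw2 (w_nonneg x p) hd0
        _ ≤ d * (f p + 1) := mul_le_mul_of_nonneg_left (by linarith) hd0
    · have hmem : (p : ℕ) ∈ degOne L D := by
        refine ⟨not_le.1 hpD, p.2, ?_⟩
        unfold R at hR0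
        obtain ⟨v, hv⟩ := Finset.card_pos.1 (Nat.pos_of_ne_zero hR0)
        rw [Finset.mem_filter] at hv
        obtain ⟨u, hu⟩ := v
        refine ⟨u, ?_⟩
        have h3 := (nm_eq u).1
        rw [hv.2, hu, pow_one] at h3
        exact h3
      have h3 : f p = 1 / (p : ℕ) := Set.indicator_of_mem hmem _
      calc (R L p : ℝ) * w x p ≤ d * (1 / (p : ℕ)) := mul_le_mul hR hw1 (w_nonneg x p) hd0
        _ ≤ d * (f p + g p) := mul_le_mul_of_nonneg_left (by linarith) hd0
  obtain ⟨C, hC⟩ := sum_R_bdd (K := L)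
  have hW := W_tendsto
  have h3 : ∀ᶠ x : ℝ in 𝓝[>] 1, C + d * ∑' p, (f p + g p) < W x :=
    hW.eventually (eventually_gt_atTop _)
  obtain ⟨x, ⟨hx1, hx2⟩, hx3⟩ := ((hC.and h3).and self_mem_nhdsWithin).exists
  have hx : 1 < x := hx3
  have hs1 : Summable (fun p : Nat.Primes => (R L p : ℝ) * w x p) :=
    bddmul_summable hx (C := Module.finrank ℚ L) fun p => by
      rw [abs_of_nonneg (by positivity)]; exact_mod_cast R_le p
  have h4 : ∑' p : Nat.Primes, ((R L p : ℝ) - 1) * w x p =
      ∑' p : Nat.Primes, (R L p : ℝ) * w x p - W x := by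
    have e : ∀ p : Nat.Primes, ((R L p : ℝ) - 1) * w x p = (R L p : ℝ) * w x p - w x p :=
      fun p => by ring
    rw [tsum_congr e, Summable.tsum_sub hs1 (w_summable hx)]
    rfl
  have h5 : ∑' p : Nat.Primes, (R L p : ℝ) * w x p ≤ d * ∑' p, (f p + g p) := by
    rw [← tsum_mul_left]
    exact Summable.tsum_le_tsum (hbound x hx) hs1 ((h2.add hg).mul_left d)
  have h6 := (abs_le.1 hx1).1
  beta_reduce at h6
  rw [h4] at h6
  linarith

end Pool.Agent.D0H93.ZD
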