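import Mathlib

/-!
# Sets of integers of density zero which avoid a residue class modulo many primes
-/

set_option autoImplicit false

namespace Pool.Agent.D0H93.ZD

/-- natural density zero -/
def Null (E : Set ℤ) : Prop :=
  ∀ ε : ℝ, 0 < ε → ∃ N₀ : ℕ, ∀ N : ℕ, N₀ ≤ N →
    ({t : ℤ | t ∈ E ∧ |t| ≤ N}.ncard : ℝ) ≤ ε * N

theorem Null.mono {E E' : Set ℤ} (h : E ⊆ E') (hE : Null E') : Null E := by
  intro ε hε
  obtain ⟨N₀, hN₀⟩ := hE ε hε
  refine ⟨N₀, fun N hN => le_trans ?_ (hN₀ N hN)⟩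
  have hfin : {t : ℤ | t ∈ E' ∧ |t| ≤ N}.Finite :=
    (Set.finite_Icc (-(N : ℤ)) N).subset fun t ht => ⟨(abs_le.1 ht.2).1, (abs_le.1 ht.2).2⟩
  have hsub : {t : ℤ | t ∈ E ∧ |t| ≤ N} ⊆ {t : ℤ | t ∈ E' ∧ |t| ≤ N} :=
    fun t ht => ⟨h ht.1, ht.2⟩
  exact_mod_cast Set.ncard_le_ncard hsub hfin

open Classical in
/-- the number of the `s < N` which avoid the class of `- a p` modulo `p` for `p ∈ F` -/
noncomputable def cnt (F : Finset ℕ) (a : ℕ → ℤ) (N : ℕ) : ℕ :=
  ((Finset.range N).filter fun s : ℕ => ∀ p ∈ F, ¬ (p : ℤ) ∣ (s : ℤ) + a p).card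

theorem cnt_bound (F : Finset ℕ) (hF : ∀ p ∈ F, p.Prime) : ∃ C : ℝ, ∀ (a : ℕ → ℤ) (N : ℕ),
    |(cnt F a N : ℝ) - N * ∏ p ∈ F, (1 - 1 / (p : ℝ))| ≤ C := by
  classical
  induction F using Finset.induction_on with
  | empty =>
    refine ⟨0, fun a N => ?_⟩
    simp [cnt]
  | insert q F hq ih =>
    obtain ⟨C, hC⟩ := ih fun p hp => hF p (Finset.mem_insert_of_mem hp)
    have hqp : q.Prime := hF q (Finset.mem_insert_self q F)
    have hq0 : 0 < q := hqp.pos
    refine ⟨2 * C + 1, fun a N => ?_⟩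
    -- the class of `q`
    obtain ⟨b, hb⟩ : ∃ b : ℕ, b < q ∧ (q : ℤ) ∣ b + a q := by
      refine ⟨((-(a q)) % q).toNat, ?_, ?_⟩
      · have h1 := Int.emod_lt_of_pos (-(a q)) (by exact_mod_cast hq0 : (0 : ℤ) < q)
        have h2 := Int.emod_nonneg (-(a q)) (by exact_mod_cast hq0.ne' : (q : ℤ) ≠ 0)
        omega
      · have h2 := Int.emod_nonneg (-(a q)) (by exact_mod_cast hq0.ne' : (q : ℤ) ≠ 0)
        rw [Int.toNat_of_nonneg h2]
        have h3 := Int.emod_add_mul_ediv (-(a q)) q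
        refine ⟨-(-(a q) / q), ?_⟩
        linarith
    obtain ⟨hbq, hb⟩ := hb
    have hinv : ∀ p ∈ F, ∃ u : ℤ, (p : ℤ) ∣ u * q - 1 := by
      intro p hp
      have hpp := hF p (Finset.mem_insert_of_mem hp)
      have hne : q ≠ p := fun h => hq (h ▸ hp)
      have hcop : IsCoprime (q : ℤ) (p : ℤ) :=
        Nat.isCoprime_iff_coprime.2 ((Nat.coprime_primes hqp hpp).2 hne)
      obtain ⟨u, w, huw⟩ := hcop
      exact ⟨u, -w, by linarith⟩
    choose! u hu using hinv
    let a' : ℕ → ℤ := fun p => u p * (b + a p)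
    let N' : ℕ := (N + q - 1 - b) / q
    have hkey : ∀ p ∈ F, ∀ s : ℤ, (p : ℤ) ∣ (q * s + b : ℤ) + a p ↔ (p : ℤ) ∣ s + a' p := by
      intro p hp s
      obtain ⟨w, hw⟩ := hu p hp
      constructor
      · rintro ⟨z, hz⟩
        refine ⟨u p * z - w * s, ?_⟩
        simp only [a']
        linear_combination (u p) * hz - s * hw
      · rintro ⟨z, hz⟩
        simp only [a'] at hz
        refine ⟨q * z - w * (b + a p), ?_⟩
        linear_combination (q : ℤ) * hz - (b + a p) * hw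
    have hsplit : cnt (insert q F) a N + cnt F a' N' = cnt F a N := by
      have h1 : cnt F a N = ((Finset.range N).filter fun s : ℕ =>
          (∀ p ∈ F, ¬ (p : ℤ) ∣ s + a p) ∧ (q : ℤ) ∣ s + a q).card +
          ((Finset.range N).filter fun s : ℕ =>
          (∀ p ∈ F, ¬ (p : ℤ) ∣ s + a p) ∧ ¬ (q : ℤ) ∣ s + a q).card := by
        unfold cnt
        rw [← Finset.filter_filter, ← Finset.filter_filter,
          Finset.card_filter_add_card_filter_not]
      have h2 : cnt (insert q F) a N = ((Finset.range N).filter fun s : ℕ =>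
          (∀ p ∈ F, ¬ (p : ℤ) ∣ s + a p) ∧ ¬ (q : ℤ) ∣ s + a q).card := by
        unfold cnt
        congr 1
        ext s
        simp only [Finset.mem_filter, Finset.mem_insert, forall_eq_or_imp]
        tauto
      have h3 : cnt F a' N' = ((Finset.range N).filter fun s : ℕ =>
          (∀ p ∈ F, ¬ (p : ℤ) ∣ s + a p) ∧ (q : ℤ) ∣ s + a q).card := by
        unfold cnt
        refine Finset.card_bij (fun s _ => q * s + b) ?_ ?_ ?_
        · intro s hs
          rw [Finset.mem_filter, Finset.mem_range] at hs ⊢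
          obtain ⟨hs1, hs2⟩ := hs
          refine ⟨?_, ?_, ?_⟩
          · have h4 : (s + 1) * q ≤ N + q - 1 - b := (Nat.le_div_iff_mul_le hq0).1 hs1
            have h5 : (s + 1) * q = q * s + q := by ring
            omega
          · intro p hp
            push_cast
            rw [hkey p hp]
            exact hs2 p hp
          · push_cast
            obtain ⟨z, hz⟩ := hb
            exact ⟨s + z, by linear_combination hz⟩
        · intro s _ s' _ h
          have h4 : q * s = q * s' := Nat.add_right_cancel h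
          exact Nat.eq_of_mul_eq_mul_left hq0 h4
        · intro s hs
          rw [Finset.mem_filter, Finset.mem_range] at hs
          obtain ⟨hs1, hs2, hs3⟩ := hs
          have h4 : (q : ℤ) ∣ (s : ℤ) - b := by
            have h5 := dvd_sub hs3 hb
            have h6 : (s : ℤ) + a q - (b + a q) = s - b := by ring
            rwa [h6] at h5
          obtain ⟨z, hz⟩ := h4
          have hz0 : 0 ≤ z := by
            by_contra hcon
            push Not at hcon
            have h5 : (q : ℤ) * z ≤ q * (-1) :=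
              mul_le_mul_of_nonneg_left (by omega) (by positivity)
            omega
          obtain ⟨s', rfl⟩ := Int.eq_ofNat_of_zero_le hz0
          have hs' : s = q * s' + b := by
            have h5 : (s : ℤ) = q * s' + b := by linarith
            exact_mod_cast h5
          refine ⟨s', ?_, hs'.symm⟩
          rw [Finset.mem_filter, Finset.mem_range]
          refine ⟨?_, fun p hp => ?_⟩
          · change s' + 1 ≤ (N + q - 1 - b) / q
            rw [Nat.le_div_iff_mul_le hq0]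
            have h5 : (s' + 1) * q = q * s' + q := by ring
            omega
          · rw [← hkey p hp]
            have h5 := hs2 p hp
            rw [hs'] at h5
            push_cast at h5
            exact h5
      omega
    have hN' : |(N' : ℝ) - N / q| ≤ 1 := by
      have h1 : N' * q ≤ N + q - 1 - b := Nat.div_mul_le_self _ _
      have h2 : N + q - 1 - b < (N' + 1) * q := Nat.lt_mul_of_div_lt (Nat.lt_succ_self _) hq0
      have h3 : (N' : ℝ) * q ≤ N + q := by
        have : N' * q ≤ N + q := by omega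
        exact_mod_cast this
      have h4 : (N : ℝ) < (N' + 1) * q := by
        have : N < (N' + 1) * q := by omega
        exact_mod_cast this
      have hqr : (0 : ℝ) < q := by exact_mod_cast hq0
      rw [abs_le]
      constructor
      · have h5 : (N : ℝ) / q ≤ N' + 1 := by
          rw [div_le_iff₀ hqr]
          exact h4.le
        linarith
      · have h5 : (N' : ℝ) - 1 ≤ N / q := by
          rw [le_div_iff₀ hqr]
          linarith
        linarith
    set δ : ℝ := ∏ p ∈ F, (1 - 1 / (p : ℝ)) with hδ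
    have hδ0 : 0 ≤ δ := Finset.prod_nonneg fun p hp => by
      have h1 : (1 : ℝ) ≤ p := by exact_mod_cast (hF p (Finset.mem_insert_of_mem hp)).one_lt.le
      have h2 : 1 / (p : ℝ) ≤ 1 := by
        rw [div_le_one (by linarith)]
        exact h1
      linarith
    have hδ1 : δ ≤ 1 := Finset.prod_le_one (fun p hp => by
      have h1 : (1 : ℝ) ≤ p := by exact_mod_cast (hF p (Finset.mem_insert_of_mem hp)).one_lt.le
      have h2 : 1 / (p : ℝ) ≤ 1 := by
        rw [div_le_one (by linarith)]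
        exact h1
      linarith) fun p hp => by
      have h1 : 0 ≤ 1 / (p : ℝ) := by positivity
      linarith
    rw [Finset.prod_insert hq, ← hδ]
    have h1 := hC a N
    have h2 := hC a' N'
    have h3 : (cnt (insert q F) a N : ℝ) = cnt F a N - cnt F a' N' := by
      rw [← hsplit]
      push_cast
      ring
    rw [h3]
    have h4 : (cnt F a N : ℝ) - cnt F a' N' - N * ((1 - 1 / (q : ℝ)) * δ) =
        ((cnt F a N : ℝ) - N * δ) - ((cnt F a' N' : ℝ) - N' * δ) - (N' - N / q) * δ := by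
      ring
    rw [h4]
    have h5 : |((N' : ℝ) - N / q) * δ| ≤ 1 := by
      rw [abs_mul, abs_of_nonneg hδ0]
      exact mul_le_one₀ hN' hδ0 hδ1
    have h6 := abs_sub ((cnt F a N : ℝ) - N * δ - ((cnt F a' N' : ℝ) - N' * δ))
      (((N' : ℝ) - N / q) * δ)
    have h7 := abs_sub ((cnt F a N : ℝ) - N * δ) ((cnt F a' N' : ℝ) - N' * δ)
    linarith

theorem null_avoid (P : Set ℕ) (hP : ∀ p ∈ P, p.Prime)
    (hdiv : ¬ Summable fun p : P => 1 / ((p : ℕ) : ℝ)) (r : ℕ → ℤ) :
    Null {t : ℤ | ∀ p ∈ P, ¬ (p : ℤ) ∣ t - r p} := by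
  classical
  intro ε hε
  obtain ⟨F', hF'⟩ : ∃ F' : Finset P, -Real.log (ε / 4) ≤ ∑ p ∈ F', 1 / ((p : ℕ) : ℝ) := by
    by_contra hcon
    push Not at hcon
    exact hdiv (summable_of_sum_le (fun p => by positivity) fun F' => (hcon F').le)
  let F : Finset ℕ := F'.map (Function.Embedding.subtype _)
  have hFP : ∀ p ∈ F, p ∈ P := by
    intro p hp
    obtain ⟨q, _, rfl⟩ := Finset.mem_map.1 hp
    exact q.2
  have hsum : ∑ p ∈ F, 1 / (p : ℝ) = ∑ p ∈ F', 1 / ((p : ℕ) : ℝ) := by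
    rw [Finset.sum_map]
    rfl
  have hprod : ∏ p ∈ F, (1 - 1 / (p : ℝ)) ≤ ε / 4 := by
    have h1 : ∏ p ∈ F, (1 - 1 / (p : ℝ)) ≤ ∏ p ∈ F, Real.exp (-(1 / (p : ℝ))) := by
      refine Finset.prod_le_prod (fun p hp => ?_) fun p hp => ?_
      · have h1 : (1 : ℝ) ≤ p := by exact_mod_cast (hP p (hFP p hp)).one_lt.le
        have h2 : 1 / (p : ℝ) ≤ 1 := by
          rw [div_le_one (by linarith)]
          exact h1
        linarith
      · have := Real.add_one_le_exp (-(1 / (p : ℝ)))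
        linarith
    refine h1.trans ?_
    rw [← Real.exp_sum, Finset.sum_neg_distrib, hsum]
    calc Real.exp (-∑ p ∈ F', 1 / ((p : ℕ) : ℝ)) ≤ Real.exp (Real.log (ε / 4)) := by
          apply Real.exp_le_exp.2
          linarith
      _ = ε / 4 := Real.exp_log (by positivity)
  obtain ⟨C, hC⟩ := cnt_bound F fun p hp => hP p (hFP p hp)
  obtain ⟨N₀, hN₀⟩ := exists_nat_gt ((ε / 4 + C) / (ε / 2))
  refine ⟨N₀, fun N hN => ?_⟩
  have hcard : {t : ℤ | (t ∈ {t : ℤ | ∀ p ∈ P, ¬ (p : ℤ) ∣ t - r p}) ∧ |t| ≤ N}.ncard ≤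
      cnt F (fun p => -N - r p) (2 * N + 1) := by
    unfold cnt
    rw [← Set.ncard_coe_finset]
    refine Set.ncard_le_ncard_of_injOn (fun t : ℤ => (t + N).toNat) ?_ ?_ (Finset.finite_toSet _)
    · rintro t ⟨ht1, ht2⟩
      rw [Finset.mem_coe, Finset.mem_filter, Finset.mem_range]
      have h1 := abs_le.1 ht2
      refine ⟨by omega, fun p hp => ?_⟩
      rw [Int.toNat_of_nonneg (by omega)]
      have h2 := ht1 p (hFP p hp)
      have h3 : t + N + (-N - r p) = t - r p := by ring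
      rwa [h3]
    · rintro t ⟨_, ht⟩ t' ⟨_, ht'⟩ h
      have h1 := abs_le.1 ht
      have h2 := abs_le.1 ht'
      simp only at h
      omega
  have h1 : (({t : ℤ | (t ∈ {t : ℤ | ∀ p ∈ P, ¬ (p : ℤ) ∣ t - r p}) ∧ |t| ≤ N}.ncard : ℕ) : ℝ) ≤
      (cnt F (fun p => -N - r p) (2 * N + 1) : ℕ) := by exact_mod_cast hcard
  refine h1.trans ?_
  have h2 := (abs_le.1 (hC (fun p => -N - r p) (2 * N + 1))).2
  have h3 : ((2 * N + 1 : ℕ) : ℝ) * ∏ p ∈ F, (1 - 1 / (p : ℝ)) ≤ (2 * N + 1) * (ε / 4) := by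
    push_cast
    exact mul_le_mul_of_nonneg_left hprod (by positivity)
  have h4 : (ε / 4 + C) < N * (ε / 2) := by
    have h5 : (ε / 4 + C) / (ε / 2) < N := hN₀.trans_le (by exact_mod_cast hN)
    rwa [div_lt_iff₀ (by positivity)] at h5
  linarith

/-- One null set which contains a sequence of null sets up to finite sets. -/
theorem diag (E : ℕ → Set ℤ) (hE : ∀ k, Null (⋃ j ∈ Finset.range (k + 1), E j)) :
    ∃ E' : Set ℤ, Null E' ∧ ∀ k, (E k \ E').Finite := by
  classical
  set U : ℕ → Set ℤ := fun k => ⋃ j ∈ Finset.range (k + 1), E j with hU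
  have hmono : ∀ k l, k ≤ l → U k ⊆ U l := by
    intro k l hkl t ht
    simp only [hU, Set.mem_iUnion, Finset.mem_range] at ht ⊢
    obtain ⟨j, hj, ht⟩ := ht
    exact ⟨j, by omega, ht⟩
  have hEU : ∀ k, E k ⊆ U k := by
    intro k t ht
    simp only [hU, Set.mem_iUnion, Finset.mem_range]
    exact ⟨k, by omega, ht⟩
  choose g hg using fun k : ℕ => hE k (1 / ((k : ℝ) + 1)) (by positivity)
  -- `t` is taken from `U k` for `|t| ≥ g k + k`
  let b : ℕ → ℕ := fun k => ∑ j ∈ Finset.range (k + 1), (g j + j)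
  have hb : ∀ k, g k + k ≤ b k := fun k =>
    Finset.single_le_sum (f := fun j => g j + j) (fun _ _ => Nat.zero_le _)
      (Finset.mem_range.2 (Nat.lt_succ_self k))
  have hbmono : ∀ k l, k ≤ l → b k ≤ b l := fun k l hkl =>
    Finset.sum_le_sum_of_subset (Finset.range_mono (by omega))
  refine ⟨{t | ∃ k, b k ≤ t.natAbs ∧ t ∈ U k}, ?_, ?_⟩
  · intro ε hε
    obtain ⟨k₀, hk₀⟩ := exists_nat_one_div_lt hε
    refine ⟨b k₀, fun N hN => ?_⟩
    -- the largest `k` with `b k ≤ N`
    set K := Nat.findGreatest (fun k => b k ≤ N) N with hK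
    have hk0K : k₀ ≤ K := Nat.le_findGreatest (by have := hb k₀; omega) hN
    have hbK : b K ≤ N := by
      have := Nat.findGreatest_spec (P := fun k => b k ≤ N) (m := k₀) (n := N)
        (by have := hb k₀; omega) hN
      exact this
    have hsub : {t : ℤ | t ∈ {t : ℤ | ∃ k, b k ≤ t.natAbs ∧ t ∈ U k} ∧ |t| ≤ N} ⊆
        {t : ℤ | t ∈ U K ∧ |t| ≤ N} := by
      rintro t ⟨⟨k, hk1, hk2⟩, ht⟩
      refine ⟨hmono k K ?_ hk2, ht⟩
      have h1 : b k ≤ N := by
        have : (t.natAbs : ℤ) = |t| := Int.natCast_natAbs t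
        omega
      refine Nat.le_findGreatest ?_ h1
      have := hb k
      omega
    have hfin : {t : ℤ | t ∈ U K ∧ |t| ≤ N}.Finite :=
      (Set.finite_Icc (-(N : ℤ)) N).subset fun t ht => ⟨(abs_le.1 ht.2).1, (abs_le.1 ht.2).2⟩
    have h1 : (({t : ℤ | t ∈ {t : ℤ | ∃ k, b k ≤ t.natAbs ∧ t ∈ U k} ∧ |t| ≤ N}.ncard : ℕ) : ℝ) ≤
        ({t : ℤ | t ∈ U K ∧ |t| ≤ N}.ncard : ℕ) := by
      exact_mod_cast Set.ncard_le_ncard hsub hfin
    refine h1.trans ((hg K N (by have := hb K; omega)).trans ?_)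
    refine mul_le_mul_of_nonneg_right ?_ (by positivity)
    refine le_trans ?_ hk₀.le
    apply one_div_le_one_div_of_le (by positivity)
    have : (k₀ : ℝ) ≤ K := by exact_mod_cast hk0K
    linarith
  · intro k
    refine (Set.finite_Icc (-(b k : ℤ)) (b k)).subset ?_
    rintro t ⟨ht1, ht2⟩
    have h1 : ¬ b k ≤ t.natAbs := fun h => ht2 ⟨k, h, hEU k ht1⟩
    constructor <;> omega

theorem Null.union {E E' : Set ℤ} (h : Null E) (h' : Null E') : Null (E ∪ E') := by
  intro ε hε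
  obtain ⟨N₀, hN₀⟩ := h (ε / 2) (by positivity)
  obtain ⟨N₁, hN₁⟩ := h' (ε / 2) (by positivity)
  refine ⟨max N₀ N₁, fun N hN => ?_⟩
  have h1 := hN₀ N ((le_max_left _ _).trans hN)
  have h2 := hN₁ N ((le_max_right _ _).trans hN)
  have h3 : {t : ℤ | t ∈ E ∪ E' ∧ |t| ≤ N} = {t : ℤ | t ∈ E ∧ |t| ≤ N} ∪ {t : ℤ | t ∈ E' ∧ |t| ≤ N} := by
    ext t
    simp only [Set.mem_union, Set.mem_ofPred_eq]
    tauto
  rw [h3]
  have h4 := Set.ncard_union_le {t : ℤ | t ∈ E ∧ |t| ≤ N} {t : ℤ | t ∈ E' ∧ |t| ≤ N}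
  have h5 : ((({t : ℤ | t ∈ E ∧ |t| ≤ N} ∪ {t : ℤ | t ∈ E' ∧ |t| ≤ N}).ncard : ℕ) : ℝ) ≤
      ({t : ℤ | t ∈ E ∧ |t| ≤ N}.ncard : ℕ) + ({t : ℤ | t ∈ E' ∧ |t| ≤ N}.ncard : ℕ) := by
    exact_mod_cast h4
  linarith

theorem diag' {ι : Type*} [Countable ι] [Nonempty ι] (E : ι → Set ℤ) (hE : ∀ i, Null (E i)) :
    ∃ E' : Set ℤ, Null E' ∧ ∀ i, (E i \ E').Finite := by
  obtain ⟨f, hf⟩ := exists_surjective_nat ι
  obtain ⟨E', h1, h2⟩ := diag (fun k => E (f k)) (fun k => by
    induction k with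
    | zero =>
      refine (hE (f 0)).mono ?_
      intro t ht
      simp only [Set.mem_iUnion, Finset.mem_range] at ht
      obtain ⟨j, hj, ht⟩ := ht
      obtain rfl : j = 0 := by omega
      exact ht
    | succ k ih =>
      refine (ih.union (hE (f (k + 1)))).mono ?_
      intro t ht
      simp only [Set.mem_iUnion, Finset.mem_range, Set.mem_union] at ht ⊢
      obtain ⟨j, hj, ht⟩ := ht
      rcases Nat.lt_or_ge j (k + 1) with h | h
      · exact Or.inl ⟨j, h, ht⟩
      · obtain rfl : j = k + 1 := by omega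
        exact Or.inr ht)
  refine ⟨E', h1, fun i => ?_⟩
  obtain ⟨k, rfl⟩ := hf i
  exact h2 k

end Pool.Agent.D0H93.ZD
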