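import Pool.Agent.D0H93.ZC.Sun
import Pool.Agent.D0H93.ZD.Sieve
import Pool.Agent.D0H93.ZD.Deg

/-!
# Almost all integers are near to `α` at a place above a prime number `p ≡ 1` modulo `k!`
-/

set_option autoImplicit false

namespace Pool.Agent.D0H93.ZD

open NumberField IsDedekindDomain

theorem exists_near_int {L : Type} [Field L] [NumberField L] (β : L) : ∃ D : ℕ, ∀ p : ℕ, p.Prime →
    D < p → ∀ u : HeightOneSpectrum (𝓞 L), Ideal.absNorm u.asIdeal = p → ∃ r : ℤ, ∀ t : ℤ,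
      (p : ℤ) ∣ t - r → u.valuation L ((t : L) - β) < 1 := by
  have hβ : IsAlgebraic ℤ β :=
    (IsFractionRing.isAlgebraic_iff ℤ ℚ L).2 (Algebra.IsAlgebraic.isAlgebraic β)
  obtain ⟨N, hN, hint⟩ := hβ.exists_integral_multiple
  let x : 𝓞 L := ⟨N • β, hint⟩
  have hx : (x : L) = N * β := by
    change N • β = N * β
    rw [zsmul_eq_mul]
  refine ⟨N.natAbs, fun p hp hpN u hu => ?_⟩
  have hpu : (p : 𝓞 L) ∈ u.asIdeal := by
    have := Ideal.absNorm_mem u.asIdeal
    rwa [hu] at this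
  have hpN' : ¬ (p : ℤ) ∣ N := by
    intro h
    have h1 := Int.natCast_dvd.1 h
    have h2 := Nat.le_of_dvd (Int.natAbs_pos.2 hN) h1
    omega
  have hcop : IsCoprime (p : ℤ) N :=
    ((Nat.prime_iff_prime_int.1 hp).coprime_iff_not_dvd).2 hpN'
  obtain ⟨a, b, hab⟩ := hcop
  have hNu : (N : 𝓞 L) ∉ u.asIdeal := by
    intro h
    apply u.isPrime.ne_top
    rw [Ideal.eq_top_iff_one]
    have h5 : (1 : 𝓞 L) = (a : 𝓞 L) * (p : 𝓞 L) + (b : 𝓞 L) * (N : 𝓞 L) := by
      exact_mod_cast congrArg (fun z : ℤ => (z : 𝓞 L)) hab.symm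
    rw [h5]
    exact Ideal.add_mem _ (Ideal.mul_mem_left _ _ hpu) (Ideal.mul_mem_left _ _ h)
  -- the residue of `x`
  obtain ⟨j, hj⟩ : ∃ j : ℤ, x - j ∈ u.asIdeal := by
    have hmax : u.asIdeal.IsMaximal := u.isPrime.isMaximal u.ne_bot
    have hfin : Finite (𝓞 L ⧸ u.asIdeal) := inferInstance
    have := Fintype.ofFinite (𝓞 L ⧸ u.asIdeal)
    have hcard : Fintype.card (𝓞 L ⧸ u.asIdeal) = p := by
      rw [← Nat.card_eq_fintype_card, ← hu]
      rfl
    let e := ZMod.ringEquivOfPrime (𝓞 L ⧸ u.asIdeal) hp hcard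
    obtain ⟨j, hj⟩ := ZMod.intCast_surjective (e.symm (Ideal.Quotient.mk u.asIdeal x))
    refine ⟨j, ?_⟩
    rw [← Ideal.Quotient.eq_zero_iff_mem, map_sub, map_intCast, sub_eq_zero]
    have h1 := congrArg e hj
    rw [map_intCast, RingEquiv.apply_symm_apply] at h1
    exact h1.symm
  refine ⟨b * j, fun t ht => ?_⟩
  obtain ⟨z, hz⟩ := ht
  have hmem : (N : 𝓞 L) * t - x ∈ u.asIdeal := by
    have h1 : (N : 𝓞 L) * t - x = (N * z - a * j : ℤ) * (p : 𝓞 L) - (x - j) := by
      have h2 : N * t - j = (N * z - a * j) * (p : ℤ) := by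
        have h3 : t = p * z + b * j := by linarith
        rw [h3]
        linear_combination j * hab
      have h4 : (N : 𝓞 L) * t - j = (N * z - a * j : ℤ) * (p : 𝓞 L) := by
        exact_mod_cast congrArg (fun z : ℤ => (z : 𝓞 L)) h2
      rw [← h4]
      ring
    rw [h1]
    exact Ideal.sub_mem _ (Ideal.mul_mem_left _ _ hpu) hj
  have h1 : u.valuation L (algebraMap (𝓞 L) L ((N : 𝓞 L) * t - x)) < 1 :=
    (u.valuation_lt_one_iff_mem _).2 hmem
  have h2 : algebraMap (𝓞 L) L ((N : 𝓞 L) * t - x) = (N : L) * ((t : L) - β) := by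
    rw [map_sub, map_mul, map_intCast, map_intCast]
    change (N : L) * t - (x : L) = _
    rw [hx]
    ring
  rw [h2, map_mul] at h1
  have h3 : u.valuation L (N : L) = 1 := by
    have h4 : u.valuation L (algebraMap (𝓞 L) L (N : 𝓞 L)) = 1 := by
      refine le_antisymm (u.valuation_le_one _) (not_lt.1 fun h => hNu ?_)
      exact (u.valuation_lt_one_iff_mem _).1 h
    rwa [map_intCast] at h4
  rwa [h3, one_mul] at h1

/-- the integers which are not near to `α` at a place above a prime number `p ≡ 1` modulo `k!` -/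
def bad {K : Type} [Field K] [NumberField K] (α : K) (k : ℕ) : Set ℤ :=
  {t | ¬ ∃ (p : ℕ) (v : HeightOneSpectrum (𝓞 K)), p.Prime ∧ p ≡ 1 [MOD k.factorial] ∧
    (p : 𝓞 K) ∈ v.asIdeal ∧ v.valuation K ((t : K) - α) < 1}

theorem null_bad {K : Type} [Field K] [NumberField K] (α : K) (k : ℕ) : Null (bad α k) := by
  classical
  have hM : NeZero k.factorial := ⟨k.factorial_ne_zero⟩
  let L := CyclotomicField k.factorial K
  have hζ := IsCyclotomicExtension.zeta_spec k.factorial K L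
  obtain ⟨D, hD⟩ := exists_near_int (algebraMap K L α)
  let P := degOne L (D + NumberField.Units.torsionOrder L)
  have hex : ∀ p ∈ P, ∃ (r : ℤ) (u : HeightOneSpectrum (𝓞 L)), Ideal.absNorm u.asIdeal = p ∧
      ∀ t : ℤ, (p : ℤ) ∣ t - r → u.valuation L ((t : L) - algebraMap K L α) < 1 := by
    rintro p ⟨hp1, hp2, u, hu⟩
    obtain ⟨r, hr⟩ := hD p hp2 (by omega) u hu
    exact ⟨r, u, hu, hr⟩
  choose! r hur using hex
  refine (null_avoid P (fun p hp => hp.2.1) (not_summable_degOne L _) r).mono ?_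
  intro t ht p hp hdvd
  apply ht
  obtain ⟨u, h1, h2⟩ := hur p hp
  obtain ⟨v, hv1, hv2⟩ := Pool.Agent.D0H93.ZC.exists_below (algebraMap K L) u
  refine ⟨p, v, hp.2.1, ?_, ?_, ?_⟩
  · have hcop : (Ideal.absNorm u.asIdeal).Coprime (NumberField.Units.torsionOrder L) := by
      rw [h1, Nat.Prime.coprime_iff_not_dvd hp.2.1]
      intro h
      have h3 := Nat.le_of_dvd (NumberField.Units.torsionOrder_pos L) h
      have h4 := hp.1
      omega
    have h3 := NumberField.torsionOrder_dvd_absNorm_sub_one u.ne_bot u.isPrime hcop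
    rw [h1] at h3
    have h4 := (NumberField.Units.dvd_torsionOrder_of_isPrimitiveRoot hζ).trans h3
    exact ((Nat.modEq_iff_dvd' hp.2.1.one_lt.le).2 h4).symm
  · rw [hv1]
    have := Ideal.absNorm_mem u.asIdeal
    rwa [h1] at this
  · apply hv2
    have h3 := h2 t hdvd
    rw [map_sub, map_intCast]
    exact h3

end Pool.Agent.D0H93.ZD
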