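import Pool.Agent.D0H93.ZC.Loc

/-!
# CM points are ordinary at the primes `p ≡ 1` modulo `k!`
-/

set_option autoImplicit false

namespace Pool.Agent.D0H93.ZD

open UpperHalfPlane H294ZP Pool.Agent.N135.ZO

theorem lt_of_modEq {k p : ℕ} (hp : p.Prime) (h : p ≡ 1 [MOD k.factorial]) : k < p := by
  have h1 : k.factorial ∣ p - 1 := (Nat.modEq_iff_dvd' hp.one_lt.le).1 h.symm
  have h2 := Nat.le_of_dvd (by have := hp.two_le; omega) h1
  have h3 := Nat.self_le_factorial k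
  have := hp.two_le
  omega

theorem exists_sq {Δ p : ℕ} (hΔ : 0 < Δ) (hp : p.Prime) (hp2 : p ≠ 2) (h : p ≡ 1 [MOD 4 * Δ]) :
    ∃ y : ZMod p, y * y = -(Δ : ZMod p) := by
  have := Fact.mk hp
  have hodd : Odd p := hp.odd_of_ne_two hp2
  have h1 : jacobiSym (-(Δ : ℤ)) p = 1 := by
    rw [jacobiSym.mod_right _ hodd]
    have h2 : (-(Δ : ℤ)).natAbs = Δ := by simp
    rw [h2]
    have h3 : p % (4 * Δ) = 1 := by
      have h4 : p % (4 * Δ) = 1 % (4 * Δ) := h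
      rw [h4, Nat.mod_eq_of_lt (by omega)]
    rw [h3, jacobiSym.one_right]
  rw [← jacobiSym.legendreSym.to_jacobiSym] at h1
  have h2 : ((-(Δ : ℤ) : ℤ) : ZMod p) ≠ 0 := by
    intro h3
    rw [(legendreSym.eq_zero_iff p _).2 h3] at h1
    exact zero_ne_one h1
  obtain ⟨y, hy⟩ := (legendreSym.eq_one_iff p h2).1 h1
  refine ⟨y, ?_⟩
  rw [← hy]
  push_cast
  rfl

theorem ordAt_of_modEq {z : ℍ} (hz : IsCM z) : ∃ k₀ : ℕ, ∀ k, k₀ ≤ k → ∀ p : ℕ, p.Prime →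
    p ≡ 1 [MOD k.factorial] → OrdAt p z := by
  obtain ⟨a, b, c, ha, habc⟩ := hz
  have hK := H610.disc_pos z a b c ha habc
  obtain ⟨Δ, hΔ⟩ : ∃ Δ : ℕ, (Δ : ℤ) = 4 * a * c - b ^ 2 :=
    ⟨(4 * a * c - b ^ 2).toNat, Int.toNat_of_nonneg hK.le⟩
  have hΔ0 : 0 < Δ := by
    rw [← hΔ] at hK
    exact_mod_cast hK
  refine ⟨4 * Δ + a.natAbs + 5, fun k hk p hp hpk => ?_⟩
  have hkp := lt_of_modEq hp hpk
  have hp2 : p ≠ 2 := by omega
  have h4 : 4 * Δ ∣ k.factorial := Nat.dvd_factorial (by omega) (by omega)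
  obtain ⟨y, hy⟩ := exists_sq hΔ0 hp hp2 (hpk.of_dvd h4)
  have := Fact.mk hp
  have hap : ((a : ℤ) : ZMod p) ≠ 0 := by
    rw [Ne, ZMod.intCast_zmod_eq_zero_iff_dvd]
    intro h
    have h1 := Int.natCast_dvd.1 h
    have h2 := Nat.le_of_dvd (Int.natAbs_pos.2 ha) h1
    omega
  have h2p : ((2 : ℕ) : ZMod p) ≠ 0 := by
    rw [Ne, ZMod.natCast_eq_zero_iff]
    intro h
    exact hp2 ((Nat.prime_dvd_prime_iff_eq hp Nat.prime_two).1 h)
  obtain ⟨s, hs⟩ := ZMod.intCast_surjective ((y - b) / (2 * a) : ZMod p)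
  refine Pool.Agent.D0H93.ZC.ordAt_of_root hp hp2 ha habc (by omega) (s := s) ?_
  rw [← ZMod.intCast_zmod_eq_zero_iff_dvd]
  push_cast
  rw [hs]
  have h3 : ((Δ : ℤ) : ZMod p) = 4 * a * c - b ^ 2 := by
    rw [hΔ]
    push_cast
    ring
  rw [Int.cast_natCast] at h3
  rw [h3] at hy
  have h2p' : (2 : ZMod p) ≠ 0 := by exact_mod_cast h2p
  field_simp
  linear_combination hy

end Pool.Agent.D0H93.ZD
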