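import Pool.Agent.D0H93.ZD.Place
import Pool.Agent.D0H93.ZD.Ord
import Pool.Agent.D0H93.ZD.Null

/-!
# One set of density zero for all families which degenerate to a CM point
-/

set_option autoImplicit false

namespace Pool.Agent.D0H93.ZD

open MvPolynomial UpperHalfPlane H294ZP NumberField IsDedekindDomain Pool.Agent.TH526.ZL
open Pool.Agent.D0H93.ZC
open Pool.Agent.N135.ZO (OrdAt Isog)

theorem countable_alg : Countable {x : ℂ | IsAlgebraic ℚ x} :=
  (Algebraic.countable ℚ ℂ).to_subtype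

theorem countable_field (K : IntermediateField ℚ ℂ) (hK : NumberField K) : Countable K := by
  have h := countable_alg
  have h1 : ∀ x : K, IsAlgebraic ℚ (x : ℂ) := fun x =>
    (Algebra.IsAlgebraic.isAlgebraic (R := ℚ) x).algebraMap
  refine Function.Injective.countable (β := {x : ℂ | IsAlgebraic ℚ x})
    (f := fun x => ⟨(x : ℂ), h1 x⟩) fun x y hxy => ?_
  exact Subtype.ext (congrArg (fun z : {x : ℂ | IsAlgebraic ℚ x} => (z : ℂ)) hxy)

theorem countable_fields : Countable {K : IntermediateField ℚ ℂ // NumberField K} := by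
  have h := countable_alg
  have h1 : ∀ K : {K : IntermediateField ℚ ℂ // NumberField K}, ∃ θ : {x : ℂ | IsAlgebraic ℚ x},
      K.1 = IntermediateField.adjoin ℚ {(θ : ℂ)} := by
    rintro ⟨K, hK⟩
    obtain ⟨θ, hθ⟩ := Field.exists_primitive_element ℚ K
    refine ⟨⟨(θ : ℂ), (Algebra.IsAlgebraic.isAlgebraic (R := ℚ) θ).algebraMap⟩, ?_⟩
    have h2 := congrArg IntermediateField.lift hθ
    exact ((IntermediateField.lift_adjoin_simple ℚ K θ).symm.trans
      (h2.trans (IntermediateField.lift_top ℚ K))).symm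
  choose θ hθ using h1
  refine Function.Injective.countable (f := θ) fun K K' hKK => ?_
  apply Subtype.ext
  rw [hθ K, hθ K', hKK]

theorem one_null : ∃ E : Set ℤ, Null E ∧ ∀ (K : IntermediateField ℚ ℂ) (_ : NumberField K) (α : K)
    (k : ℕ), (bad α k \ E).Finite := by
  classical
  have h1 := countable_fields
  let ι := (K : {K : IntermediateField ℚ ℂ // NumberField K}) × (K.1 × ℕ)
  have h2 : ∀ K : {K : IntermediateField ℚ ℂ // NumberField K}, Countable K.1 :=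
    fun K => countable_field K.1 K.2
  have h3 : Nonempty ι := ⟨⟨⟨⊥, { }⟩, (0, 0)⟩⟩
  obtain ⟨E, hE, hE'⟩ := diag' (ι := ι) (fun i => have := i.1.2; bad i.2.1 i.2.2)
    (fun i => have := i.1.2; null_bad i.2.1 i.2.2)
  exact ⟨E, hE, fun K hK α k => hE' ⟨⟨K, hK⟩, (α, k)⟩⟩

theorem main_density : ∃ E : Set ℤ, Null E ∧ ∀ {κ : Type} [Finite κ] {N n m : ℕ}
    (G : κ → MvPolynomial (Fin (N + 1)) (Polynomial Qb)) (_ : ∀ i, ∃ e, (G i).IsHomogeneous e)
    (A B : Fin n → MvPolynomial (Fin (N + 1)) (Polynomial Qb)) (d : Fin n → ℕ)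
    (_ : ∀ i, (A i).IsHomogeneous (d i)) (_ : ∀ i, (B i).IsHomogeneous (d i))
    (c : Fin n → Polynomial Qb) (_ : ∀ i, c i ≠ 0)
    (α : Qb) (_ : ∀ i, (c i).eval α = 0)
    (_ : ∀ I : Finset (Fin n), I.card = m + 1 → ∀ y : Fin (N + 1) → ℂ,
      (∀ i, aeval y (spec α (G i)) = 0) →
      (∀ i ∈ I, aeval y (spec α (A i)) * aeval y (spec α (B i)) = 0) → y = 0)
    (τ : Fin n → Option ℍ) (_ : ∀ i z, τ i = some z → IsCM z)
    (_ : ∀ i z, τ i = some z → jj z ≠ 0) (_ : ∀ i z, τ i = some z → jj z ≠ 1728)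
    (_ : ∀ i j z z', i ≠ j → τ i = some z → τ j = some z' → ¬ Isog (jj z) (jj z'))
    (_ : ∀ i j, τ i = none → τ j = none → i = j),
    {t : ℤ | t ∉ E ∧ ¬ ∀ (r : ℕ) (Z : SpecialDatum n r) (x : Fin n → ℂ), x ∈ Z.locus →
      ∀ y : Fin (N + 1) → ℂ, y ≠ 0 → (∀ i, aeval y (spec (t : Qb) (G i)) = 0) →
      (∀ i, Eqn (τ i) (((c i).eval (t : Qb) : Qb) : ℂ) (aeval y (spec (t : Qb) (A i)))
        (aeval y (spec (t : Qb) (B i))) (x i)) →
      ∀ S : Finset (Fin n), AlgebraicIndependent ℚ (fun i : S => x i) →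
        n + S.card ≤ r + m}.Finite := by
  classical
  obtain ⟨E, hE, hE'⟩ := one_null
  refine ⟨E, hE, ?_⟩
  intro κ _ N n m G hG A B d hA hB c hc α hcα hdis τ hcm h0 h1728 hiso hcusp
  obtain ⟨K, hK, αK, D, hαK, hmain⟩ := main_place G hG A B d hA hB c α hcα hdis τ hcm h0 h1728
    hiso hcusp
  have hord : ∀ i, ∃ k₀ : ℕ, ∀ k, k₀ ≤ k → ∀ p : ℕ, p.Prime → p ≡ 1 [MOD k.factorial] →
      ∀ z, τ i = some z → OrdAt p z := by
    intro i
    rcases hi : τ i with _ | z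
    · exact ⟨0, fun k _ p _ _ z hz => by simp at hz⟩
    · obtain ⟨k₀, hk₀⟩ := ordAt_of_modEq (hcm i z hi)
      refine ⟨k₀, fun k hk p hp hpk z' hz' => ?_⟩
      obtain rfl : z = z' := by simpa using hz'
      exact hk₀ k hk p hp hpk
  choose k₀ hk₀ using hord
  obtain ⟨k, hk⟩ : ∃ k, k = D + ∑ i, k₀ i := ⟨_, rfl⟩
  have hk₀k : ∀ i, k₀ i ≤ k := by
    intro i
    have := Finset.single_le_sum (f := k₀) (fun _ _ => Nat.zero_le _) (Finset.mem_univ i)
    omega
  have hF2 : (⋃ i, {t : ℤ | (c i).eval (t : Qb) = 0}).Finite := by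
    refine Set.finite_iUnion fun i => ?_
    have h1 : ({x : Qb | (c i).eval x = 0}).Finite := by
      refine (Polynomial.finite_setOfPred_isRoot (hc i)).subset fun x hx => hx
    exact h1.preimage (Int.cast_injective.injOn)
  refine ((hE' K hK αK k).union hF2).subset ?_
  rintro t ⟨htE, ht⟩
  by_contra hcon
  apply ht
  rw [Set.mem_union, not_or] at hcon
  obtain ⟨hcon1, hcon2⟩ := hcon
  have hct : ∀ i, (c i).eval (t : Qb) ≠ 0 := fun i h => hcon2 (Set.mem_iUnion.2 ⟨i, h⟩)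
  have hgood : ¬ t ∈ bad αK k := fun h => hcon1 ⟨h, htE⟩
  obtain ⟨p, v, hp, hpk, hpv, hvt⟩ := not_not.1 hgood
  have hcast : (((t : ℚ) : Qb)) = (t : Qb) := by push_cast; rfl
  have hDp : D < p := by
    have := lt_of_modEq hp hpk
    omega
  have h1 := hmain (t : ℚ) (by rwa [hcast]) p v hp hDp hpv (by
    have h2 : (((t : ℚ) : K)) = (t : K) := by push_cast; rfl
    rw [h2]
    exact hvt) (fun i z hz => hk₀ i k (hk₀k i) p hp hpk z hz)
  rw [hcast] at h1
  exact h1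

end Pool.Agent.D0H93.ZD
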