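import Pool.Agent.D0H93.ZC.Main

/-!
# The core of the theorem on families which degenerate to a CM point, for one place
-/

set_option autoImplicit false

namespace Pool.Agent.D0H93.ZD

open MvPolynomial UpperHalfPlane H294ZP NumberField IsDedekindDomain Pool.Agent.TH526.ZL
open Pool.Agent.D0H93.ZC
open Pool.Agent.N135.ZO (OrdAt Isog)

theorem main_place {κ : Type} [Finite κ] {N n m : ℕ}
    (G : κ → MvPolynomial (Fin (N + 1)) (Polynomial Qb)) (hG : ∀ i, ∃ e, (G i).IsHomogeneous e)
    (A B : Fin n → MvPolynomial (Fin (N + 1)) (Polynomial Qb)) (d : Fin n → ℕ)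
    (hA : ∀ i, (A i).IsHomogeneous (d i)) (hB : ∀ i, (B i).IsHomogeneous (d i))
    (c : Fin n → Polynomial Qb) (α : Qb) (hcα : ∀ i, (c i).eval α = 0)
    (hdis : ∀ I : Finset (Fin n), I.card = m + 1 → ∀ y : Fin (N + 1) → ℂ,
      (∀ i, aeval y (spec α (G i)) = 0) →
      (∀ i ∈ I, aeval y (spec α (A i)) * aeval y (spec α (B i)) = 0) → y = 0)
    (τ : Fin n → Option ℍ) (hcm : ∀ i z, τ i = some z → IsCM z)
    (h0 : ∀ i z, τ i = some z → jj z ≠ 0) (h1728 : ∀ i z, τ i = some z → jj z ≠ 1728)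
    (hiso : ∀ i j z z', i ≠ j → τ i = some z → τ j = some z' → ¬ Isog (jj z) (jj z'))
    (hcusp : ∀ i j, τ i = none → τ j = none → i = j) :
    ∃ (K : IntermediateField ℚ ℂ) (_ : NumberField K) (αK : K) (D : ℕ), (αK : ℂ) = (α : ℂ) ∧
      ∀ t : ℚ, (∀ i, (c i).eval (t : Qb) ≠ 0) → ∀ (p : ℕ) (v : HeightOneSpectrum (𝓞 K)),
      p.Prime → D < p → (p : 𝓞 K) ∈ v.asIdeal → v.valuation K ((t : K) - αK) < 1 →
      (∀ i z, τ i = some z → OrdAt p z) →
      ∀ (r : ℕ) (Z : SpecialDatum n r) (x : Fin n → ℂ), x ∈ Z.locus →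
      ∀ y : Fin (N + 1) → ℂ, y ≠ 0 → (∀ i, aeval y (spec (t : Qb) (G i)) = 0) →
      (∀ i, Eqn (τ i) (((c i).eval (t : Qb) : Qb) : ℂ) (aeval y (spec (t : Qb) (A i)))
        (aeval y (spec (t : Qb) (B i))) (x i)) →
      ∀ S : Finset (Fin n), AlgebraicIndependent ℚ (fun i : S => x i) →
        n + S.card ≤ r + m := by
  classical
  have hQalg : ∀ z : Qb, IsAlgebraic ℚ (z : ℂ) := fun z => (mem_algebraicClosure_iff.1 z.2)
  -- general position
  obtain ⟨W, hWfin, hαW, hW⟩ := exists_gp G hG A B d hA hB α hdis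
  -- the number field
  let T : Set ℂ := insert (α : ℂ) (⋃ i, (fun j : ℕ => (((c i).coeff j : Qb) : ℂ)) ''
    ((c i).support : Set ℕ))
  have hTfin : T.Finite := (Set.finite_iUnion fun i => (Finset.finite_toSet _).image _).insert _
  have hTalg : ∀ z ∈ T, IsIntegral ℚ z := by
    rintro z (rfl | hz)
    · exact (hQalg α).isIntegral
    · obtain ⟨i, hi⟩ := Set.mem_iUnion.1 hz
      obtain ⟨j, -, rfl⟩ := hi
      exact (hQalg _).isIntegral
  let K : IntermediateField ℚ ℂ := IntermediateField.adjoin ℚ T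
  have hKfd : FiniteDimensional ℚ K := by
    have := hTfin.to_subtype
    exact IntermediateField.finiteDimensional_adjoin hTalg
  have hKnf : NumberField K := ⟨⟩
  have hαK : (α : ℂ) ∈ K := IntermediateField.subset_adjoin ℚ T (Or.inl rfl)
  have hcK : ∀ i j, (((c i).coeff j : Qb) : ℂ) ∈ K := by
    intro i j
    by_cases h : (c i).coeff j = 0
    · rw [h]
      exact zero_mem K
    · exact IntermediateField.subset_adjoin ℚ T (Or.inr (Set.mem_iUnion.2
        ⟨i, ⟨j, Polynomial.mem_support_iff.2 h, rfl⟩⟩))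
  let αK : K := ⟨α, hαK⟩
  -- large primes
  have hWf : Finite W := hWfin.to_subtype
  obtain ⟨D1, hD1⟩ := exists_large (fun z : W => ((z : Qb) : ℂ)) (fun z => hQalg _)
  obtain ⟨D2, hD2⟩ := exists_large (fun z : (i : Fin n) × (c i).support =>
    (((c z.1).coeff z.2 : Qb) : ℂ)) (fun z => hQalg _)
  let ee : Fin n → Fin 3 → ℂ := fun i => match τ i with
    | none => ![0, 0, 0]
    | some z => ![jj z, (jj z)⁻¹, (jj z - 1728)⁻¹]
  have hee : ∀ i j, IsAlgebraic ℚ (ee i j) := by
    intro i j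
    rcases hi : τ i with _ | z
    · have h1 : ee i = ![0, 0, 0] := by
        simp only [ee]
        rw [hi]
      rw [h1]
      fin_cases j <;> exact isAlgebraic_zero
    · have h1 : ee i = ![jj z, (jj z)⁻¹, (jj z - 1728)⁻¹] := by
        simp only [ee]
        rw [hi]
      rw [h1]
      have h2 : IsAlgebraic ℚ (jj z) :=
        ((singular_modulus_integral z (hcm i z hi)).tower_top (A := ℚ)).isAlgebraic
      have h3 : IsAlgebraic ℚ (jj z - 1728) := h2.sub (isAlgebraic_algebraMap (1728 : ℚ))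
      fin_cases j
      · exact h2
      · exact h2.inv
      · exact h3.inv
  obtain ⟨D3, hD3⟩ := exists_large (fun z : Fin n × Fin 3 => ee z.1 z.2) (fun z => hee _ _)
  refine ⟨K, hKnf, αK, D1 + D2 + D3 + (Module.finrank ℚ K + 3), rfl, ?_⟩
  intro t hct p v hp hDp hpv hvt hord
  intro r Z x hx y hy0 hyG hEq S hS
  -- the elements of `K`
  let σ : K →+* ℂ := algebraMap K ℂ
  have hlK : ∀ i, (((c i).eval (t : Qb) : Qb) : ℂ) ∈ K := by
    intro i
    rw [Polynomial.eval_eq_sum_range]
    push_cast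
    refine sum_mem fun j _ => mul_mem (hcK i j) (pow_mem ?_ j)
    exact SubfieldClass.ratCast_mem K t
  let l : Fin n → K := fun i => ⟨_, hlK i⟩
  have hσl : ∀ i, σ (l i) = (((c i).eval (t : Qb) : Qb) : ℂ) := fun i => rfl
  have hl0 : ∀ i, σ (l i) ≠ 0 := by
    intro i h
    apply hct i
    rw [hσl] at h
    exact_mod_cast h
  -- the normalized coordinates
  let u : Fin n → ℂ := fun i => uu (τ i) (σ (l i)) (x i)
  have hBu : ∀ i, aeval y (spec (t : Qb) (B i)) * u i = aeval y (spec (t : Qb) (A i)) :=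
    fun i => uu_eqn (hl0 i) (hEq i)
  have huind : AlgebraicIndependent ℚ (fun i : S => u i) := by
    have hQb : Algebra.IsAlgebraic ℚ Qb := algebraicClosure.isAlgebraic ℚ ℂ
    have hx1 : AlgebraicIndependent Qb (fun i : S => x i) := hS.extendScalars Qb
    have hj : ∀ i z, τ i = some z → jj z ∈ Qb := fun i z hz =>
      mem_algebraicClosure_iff.2
        ((singular_modulus_integral z (hcm i z hz)).tower_top (A := ℚ)).isAlgebraic
    have hsm : ∀ i, ∃ s m : Qb, m ≠ 0 ∧ x i = algebraMap Qb ℂ s + algebraMap Qb ℂ m * u i := by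
      intro i
      have hne : ((c i).eval (t : Qb)) ≠ 0 := hct i
      have hne' : (((c i).eval (t : Qb) : Qb) : ℂ) ≠ 0 := hl0 i
      rcases hi : τ i with _ | z
      · refine ⟨0, ((c i).eval (t : Qb))⁻¹, inv_ne_zero hne, ?_⟩
        have h1 : u i = (((c i).eval (t : Qb) : Qb) : ℂ) * x i := by
          simp only [u]
          rw [hi]
          rfl
        rw [h1, map_zero, zero_add, map_inv₀]
        change x i = (((c i).eval (t : Qb) : Qb) : ℂ)⁻¹ * ((((c i).eval (t : Qb) : Qb) : ℂ) * x i)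
        rw [inv_mul_cancel_left₀ hne']
      · refine ⟨⟨jj z, hj i z hi⟩, ((c i).eval (t : Qb)), hne, ?_⟩
        have h1 : u i = (x i - jj z) / (((c i).eval (t : Qb) : Qb) : ℂ) := by
          simp only [u]
          rw [hi]
          rfl
        rw [h1]
        change x i = jj z + (((c i).eval (t : Qb) : Qb) : ℂ) *
          ((x i - jj z) / (((c i).eval (t : Qb) : Qb) : ℂ))
        rw [mul_div_cancel₀ _ hne']
        ring
    choose s m hm hsm using hsm
    have h2 : AlgebraicIndependent Qb (fun i : S => u i) :=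
      Pool.Agent.N135.ZO.indep_affine (fun i : S => s i) (fun i : S => m i) (fun i => hm i)
        (fun i => hsm i) hx1
    exact h2.restrictScalars (algebraMap ℚ Qb).injective
  have hu : ∀ Q : MvPolynomial S (𝓞 K),
      eval₂ (σ.comp (algebraMap (𝓞 K) K)) (fun i : S => u i) Q = 0 → Q = 0 := by
    let _ : Algebra (𝓞 K) ℂ := (σ.comp (algebraMap (𝓞 K) K)).toAlgebra
    have _ : IsScalarTower (𝓞 K) K ℂ := IsScalarTower.of_algebraMap_eq (fun _ => rfl)
    have h1 : AlgebraicIndependent K (fun i : S => u i) := huind.extendScalars K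
    have h2 : AlgebraicIndependent (𝓞 K) (fun i : S => u i) :=
      h1.restrictScalars (RingOfIntegers.coe_injective)
    exact fun Q hQ => algebraicIndependent_iff.1 h2 Q hQ
  obtain ⟨V, V', hA1, hA2, hVS, hV'S, hVV', hV'V⟩ := exists_two σ v (fun i : S => u i) hu
  have hpV : V.valuation (p : ℂ) < 1 := by
    have := (hA2 (p : 𝓞 K)).2 hpv
    simpa using this
  have hpV' : V'.valuation (p : ℂ) < 1 := hVV' _ hpV
  have hp2 : p ≠ 2 := by omega
  -- the parameter
  have hvt' : V.valuation ((t : ℂ) - α) < 1 := by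
    have h1 := (val_lt_iff hA1 hA2 ((t : K) - αK)).2 hvt
    have h2 : σ ((t : K) - αK) = (t : ℂ) - α := by
      rw [map_sub, map_ratCast]
      rfl
    rwa [h2] at h1
  have hαV : (α : ℂ) ∈ V := hD1 p hp (by omega) V hpV ⟨α, hαW⟩
  have htV : (t : ℂ) ∈ V := by
    have h1 : (t : ℂ) = ((t : ℂ) - α) + α := by ring
    rw [h1]
    exact V.add_mem _ _ ((V.valuation_le_one_iff _).1 hvt'.le) hαV
  -- the scaling factors
  have hlV : ∀ i, V.valuation (σ (l i)) < 1 := by
    intro i
    have h1 := v_eval_sub (k := Qb) V (c i) (τ := (t : Qb)) (α := α) (fun j => by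
      by_cases h : (c i).coeff j = 0
      · rw [h, map_zero]
        exact zero_mem V
      · exact hD2 p hp (by omega) V hpV ⟨i, ⟨j, Polynomial.mem_support_iff.2 h⟩⟩)
      (by
        rw [map_ratCast]
        exact htV) hαV (by
        rw [map_sub, map_ratCast]
        exact hvt')
    rw [hcα i, sub_zero] at h1
    exact h1
  have hlp : ∀ i (k : ℕ), V.valuation (σ (l i)) ^ ((p - 1) * p ^ k) ≠ V.valuation (p : ℂ) := by
    intro i k
    have h1 : v.valuation K (l i) < 1 := (val_lt_iff hA1 hA2 (l i)).1 (hlV i)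
    have h2 : Module.finrank ℚ K < (p - 1) * p ^ k := by
      have h3 : 0 < p ^ k := pow_pos hp.pos k
      calc Module.finrank ℚ K < p - 1 := by omega
        _ = (p - 1) * 1 := (mul_one _).symm
        _ ≤ (p - 1) * p ^ k := Nat.mul_le_mul_left _ h3
    have h3 := pow_ne v hp hpv h2 h1
    have hl0' : l i ≠ 0 := by
      intro h
      apply hl0 i
      rw [h, map_zero]
    have h4 := Pool.Agent.N135.ZO.val_ne hA1 hA2 (x := l i ^ ((p - 1) * p ^ k)) (y := (p : K))
      (pow_ne_zero _ hl0') (by exact_mod_cast hp.ne_zero) (by rw [map_pow]; exact h3)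
    rw [map_pow, map_pow, map_natCast] at h4
    exact h4
  -- the CM points
  have hone : ∀ i z, τ i = some z → V.valuation (jj z) = 1 ∧ V.valuation (jj z - 1728) = 1 := by
    intro i z hi
    have h1 : ee i = ![jj z, (jj z)⁻¹, (jj z - 1728)⁻¹] := by
      simp only [ee]
      rw [hi]
    have h2 := fun j => hD3 p hp (by omega) V hpV (i, j)
    simp only [h1] at h2
    have h20 : jj z ∈ V := h2 0
    have h21 : (jj z)⁻¹ ∈ V := h2 1
    have h22 : (jj z - 1728)⁻¹ ∈ V := h2 2
    have h23 : jj z - 1728 ∈ V := sub_mem h20 (by exact_mod_cast natCast_mem V 1728)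
    have key : ∀ w : ℂ, w ≠ 0 → w ∈ V → w⁻¹ ∈ V → V.valuation w = 1 := by
      intro w hw h3 h4
      rw [← V.valuation_le_one_iff] at h3 h4
      rw [map_inv₀] at h4
      have h5 : V.valuation w ≠ 0 := by rwa [Valuation.ne_zero_iff]
      refine le_antisymm h3 ?_
      have h6 := mul_le_mul_left h4 (V.valuation w)
      rwa [inv_mul_cancel₀ h5, one_mul] at h6
    exact ⟨key _ (h0 i z hi) h20 h21, key _ (sub_ne_zero.2 (h1728 i z hi)) h23 h22⟩
  -- the count
  let J : Finset (Fin n) := Finset.univ.filter fun i => V.valuation (u i) = 1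
  have hJ := local_mixed hp hp2 hpV τ hcm hord (fun i z hi => (hone i z hi).1)
    (fun i z hi => (hone i z hi).2) hiso hcusp Z hx J (fun i hi =>
      near_of_uu (hlV i) (hl0 i) (hlp i) (Finset.mem_filter.1 hi).2)
  have hgp := hW V' (fun z hz => hD1 p hp (by omega) V' hpV' ⟨z, hz⟩) (t : Qb) (by
      rw [map_sub, map_ratCast]
      exact hVV' _ hvt') y hy0 hyG u hBu
  have e1 : {i | V'.valuation (u i) ≠ 1}.ncard =
      (Finset.univ.filter fun i => V'.valuation (u i) ≠ 1).card := by
    rw [← Set.ncard_coe_finset]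
    congr 1
    ext i
    simp
  rw [e1] at hgp
  have hsub : (Finset.univ.filter fun i => V.valuation (u i) ≠ 1) ∪ S ⊆
      Finset.univ.filter fun i => V'.valuation (u i) ≠ 1 := by
    intro i hi
    rw [Finset.mem_filter]
    refine ⟨Finset.mem_univ i, ?_⟩
    rcases Finset.mem_union.1 hi with h | h
    · intro h1
      exact (Finset.mem_filter.1 h).2 (hV'V _ h1)
    · exact (hV'S ⟨i, h⟩).ne
  have hdisj : Disjoint (Finset.univ.filter fun i => V.valuation (u i) ≠ 1) S := by
    rw [Finset.disjoint_left]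
    intro i hi hiS
    exact (Finset.mem_filter.1 hi).2 (hVS ⟨i, hiS⟩)
  have h1 := Finset.card_le_card hsub
  rw [Finset.card_union_of_disjoint hdisj] at h1
  have h2 : J.card + (Finset.univ.filter fun i => V.valuation (u i) ≠ 1).card = n := by
    have h3 := Finset.card_filter_add_card_filter_not (s := (Finset.univ : Finset (Fin n)))
      (fun i => V.valuation (u i) = 1)
    rw [Finset.card_univ, Fintype.card_fin] at h3
    exact h3
  omega

end Pool.Agent.D0H93.ZD
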